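import Mathlib

/-!
# One-sided absolutely convergent Fourier series which vanish on an interval
-/

set_option autoImplicit false
open Filter Topology Finset

namespace Pool.Agent.T2H09.SG

/-- power series with summable coefficients -/
noncomputable def G (g : ℕ → ℂ) (z : ℂ) : ℂ := ∑' k : ℕ, g k * z ^ k

lemma term_le {g : ℕ → ℂ} {z : ℂ} (hz : ‖z‖ ≤ 1) (k : ℕ) : ‖g k * z ^ k‖ ≤ ‖g k‖ := by
  rw [norm_mul, norm_pow]
  exact mul_le_of_le_one_right (norm_nonneg _) (pow_le_one₀ (norm_nonneg _) hz)

lemma G_cont {g : ℕ → ℂ} (hg : Summable fun k => ‖g k‖) : ContinuousOn (G g) (Metric.closedBall 0 1) := by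
  unfold G
  refine continuousOn_tsum (fun k => by fun_prop) hg fun k z hz => ?_
  exact term_le (by simpa using hz) k

lemma G_diff {g : ℕ → ℂ} (hg : Summable fun k => ‖g k‖) : DifferentiableOn ℂ (G g) (Metric.ball 0 1) := by
  unfold G
  refine Complex.differentiableOn_tsum_of_summable_norm hg (fun k => by fun_prop) Metric.isOpen_ball
    fun k z hz => ?_
  exact term_le (by simpa using (le_of_lt (by simpa using hz : ‖z‖ < 1))) k

lemma coeff_zero {g : ℕ → ℂ} (hg : Summable fun k => ‖g k‖) (h : ∀ z ∈ Metric.ball (0 : ℂ) 1, G g z = 0) :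
    ∀ k, g k = 0 := by
  classical
  by_contra hne
  push Not at hne
  let k := Nat.find hne
  have hk : g k ≠ 0 := Nat.find_spec hne
  have hlt : ∀ j < k, g j = 0 := fun j hj => by
    have := Nat.find_min hne hj
    push Not at this
    exact this
  have hg' : Summable fun j => ‖g (j + k)‖ := (summable_nat_add_iff k).2 hg
  have hH : ContinuousAt (G fun j => g (j + k)) 0 :=
    (G_cont hg').continuousAt (Metric.closedBall_mem_nhds 0 one_pos)
  have h0 : G (fun j => g (j + k)) 0 = g k := by
    unfold G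
    rw [tsum_eq_single 0]
    · simp
    · intro j hj
      simp [hj]
  have hz : ∀ z ∈ Metric.ball (0 : ℂ) 1, z ≠ 0 → G (fun j => g (j + k)) z = 0 := by
    intro z hz hz0
    have hzn : ‖z‖ ≤ 1 := (by simpa using hz : ‖z‖ < 1).le
    have hs : Summable fun j => g j * z ^ j :=
      Summable.of_norm_bounded hg fun j => term_le hzn j
    have h1 := h z hz
    unfold G at h1
    rw [← hs.sum_add_tsum_nat_add k, Finset.sum_eq_zero (fun j hj => by
      rw [hlt j (Finset.mem_range.1 hj), zero_mul]), zero_add] at h1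
    have h2 : (fun j => g (j + k) * z ^ (j + k)) = fun j => (g (j + k) * z ^ j) * z ^ k := by
      ext j; rw [pow_add]; ring
    rw [h2, tsum_mul_right] at h1
    exact (mul_eq_zero.1 h1).resolve_right (pow_ne_zero _ hz0)
  have h1 : Tendsto (G fun j => g (j + k)) (𝓝[≠] 0) (𝓝 (g k)) := by
    rw [← h0]
    exact hH.tendsto.mono_left nhdsWithin_le_nhds
  have h2 : Tendsto (G fun j => g (j + k)) (𝓝[≠] 0) (𝓝 0) := by
    refine Tendsto.congr' ?_ tendsto_const_nhds
    filter_upwards [self_mem_nhdsWithin, nhdsWithin_le_nhds (Metric.ball_mem_nhds (0 : ℂ) one_pos)] with z h1 h2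
    exact (hz z h2 h1).symm
  exact hk (tendsto_nhds_unique h1 h2)

/-- the point of the unit circle -/
noncomputable def ee (x : ℝ) : ℂ := Complex.exp (2 * Real.pi * Complex.I * x)

lemma ee_norm (x : ℝ) : ‖ee x‖ = 1 := by
  unfold ee
  rw [show 2 * Real.pi * Complex.I * (x : ℂ) = ((2 * Real.pi * x : ℝ) : ℂ) * Complex.I by push_cast; ring]
  exact Complex.norm_exp_ofReal_mul_I _

lemma ee_add (x y : ℝ) : ee (x + y) = ee x * ee y := by
  unfold ee
  rw [← Complex.exp_add]
  congr 1
  push_cast
  ring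

lemma ee_zero : ee 0 = 1 := by simp [ee]

lemma ee_int (n : ℤ) : ee n = 1 := by
  unfold ee
  rw [Complex.exp_eq_one_iff]
  exact ⟨n, by push_cast; ring⟩

lemma ee_neg (x : ℝ) : ee (-x) = (starRingEnd ℂ) (ee x) := by
  have h1 : ee (-x) * ee x = 1 := by rw [← ee_add]; simp [ee_zero]
  have h2 : (starRingEnd ℂ) (ee x) * ee x = 1 := by
    rw [mul_comm, Complex.mul_conj, Complex.normSq_eq_norm_sq, ee_norm]; simp
  have h3 : ee x ≠ 0 := by
    intro h
    have := ee_norm x
    rw [h, norm_zero] at this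
    norm_num at this
  exact mul_right_cancel₀ h3 (h1.trans h2.symm)

lemma ee_ne (x : ℝ) : ee x ≠ 0 := by
  intro h
  have := ee_norm x
  rw [h, norm_zero] at this
  norm_num at this

lemma ee_pow (x : ℝ) (k : ℕ) : ee x ^ k = ee (k * x) := by
  unfold ee
  rw [← Complex.exp_nat_mul]
  congr 1
  push_cast
  ring

lemma exists_ee {z : ℂ} (hz : ‖z‖ = 1) : ∃ x : ℝ, z = ee x := by
  refine ⟨Complex.arg z / (2 * Real.pi), ?_⟩
  unfold ee
  have hp := Real.pi_pos
  have h := Complex.norm_mul_exp_arg_mul_I z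
  rw [hz, Complex.ofReal_one, one_mul] at h
  rw [← h]
  congr 1
  push_cast
  field_simp
  rw [h]

lemma ee_cont : Continuous ee := by unfold ee; fun_prop

/-- a product of finitely many analytic functions on the disc that vanishes has a vanishing factor -/
lemma prod_zero {ι : Type} (s : Finset ι) (f : ι → ℂ → ℂ)
    (hf : ∀ i ∈ s, AnalyticOnNhd ℂ (f i) (Metric.ball 0 1))
    (h : ∀ z ∈ Metric.ball (0 : ℂ) 1, ∏ i ∈ s, f i z = 0) :
    ∃ i ∈ s, ∀ z ∈ Metric.ball (0 : ℂ) 1, f i z = 0 := by
  classical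
  induction s using Finset.induction_on with
  | empty =>
    have := h 0 (by simp)
    simp at this
  | insert a s ha ih =>
    have hA : AnalyticOnNhd ℂ (fun z => ∏ i ∈ s, f i z) (Metric.ball 0 1) := by
      have := Finset.analyticOnNhd_fun_prod (𝕜 := ℂ) (f := f) (s := Metric.ball (0:ℂ) 1) s
        (fun i hi => hf i (Finset.mem_insert_of_mem hi))
      exact this
    have h1 := AnalyticOnNhd.eq_zero_or_eq_zero_of_mul_eq_zero (hf a (Finset.mem_insert_self a s)) hA
      (fun z hz => by
        have := h z hz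
        rwa [Finset.prod_insert ha] at this) (convex_ball (0 : ℂ) 1).isPreconnected
    rcases h1 with h1 | h1
    · exact ⟨a, Finset.mem_insert_self a s, h1⟩
    · obtain ⟨i, hi, h2⟩ := ih (fun i hi => hf i (Finset.mem_insert_of_mem hi)) h1
      exact ⟨i, Finset.mem_insert_of_mem hi, h2⟩

/-- a one-sided absolutely convergent Fourier series that vanishes on an interval is zero -/
theorem arc_zero {g : ℕ → ℂ} (hg : Summable fun k => ‖g k‖) {u v : ℝ} (huv : u < v)
    (h : ∀ x ∈ Set.Ioo u v, ∑' k : ℕ, g k * ee (k * x) = 0) : ∀ k, g k = 0 := by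
  have hG : ∀ x ∈ Set.Ioo u v, G g (ee x) = 0 := by
    intro x hx
    rw [← h x hx]
    unfold G
    exact tsum_congr fun k => by rw [ee_pow]
  -- number of rotations
  obtain ⟨m, hm⟩ := exists_nat_gt (1 / (v - u))
  have hvu : 0 < v - u := sub_pos.2 huv
  have hm0 : (0 : ℝ) < m := lt_trans (by positivity) hm
  have hm1 : 1 / (m : ℝ) < v - u := by
    rw [div_lt_iff₀ hm0]
    rw [div_lt_iff₀ hvu] at hm
    linarith
  have hmn : 0 < m := by exact_mod_cast hm0
  let f : ℕ → ℂ → ℂ := fun i z => G g (ee (i / m) * z)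
  have hmul : ∀ (i : ℕ) (z : ℂ), ‖ee (i / m) * z‖ = ‖z‖ := fun i z => by rw [norm_mul, ee_norm, one_mul]
  have hfd : ∀ i, DifferentiableOn ℂ (f i) (Metric.ball 0 1) := by
    intro i
    refine (G_diff hg).comp (by fun_prop) fun z hz => ?_
    simp only [Metric.mem_ball, dist_zero_right] at hz ⊢
    rw [hmul]; exact hz
  have hfc : ∀ i, ContinuousOn (f i) (Metric.closedBall 0 1) := by
    intro i
    refine (G_cont hg).comp (by fun_prop) fun z hz => ?_
    simp only [Metric.mem_closedBall, dist_zero_right] at hz ⊢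
    rw [hmul]; exact hz
  have hfa : ∀ i, AnalyticOnNhd ℂ (f i) (Metric.ball 0 1) := fun i => (hfd i).analyticOnNhd Metric.isOpen_ball
  have hPd : DiffContOnCl ℂ (fun z => ∏ i ∈ Finset.range m, f i z) (Metric.ball 0 1) := by
    refine ⟨?_, ?_⟩
    · exact DifferentiableOn.fun_finset_prod fun i _ => hfd i
    · rw [closure_ball _ one_ne_zero]
      exact continuousOn_finset_prod _ fun i _ => hfc i
  have hP0 : Set.EqOn (fun z => ∏ i ∈ Finset.range m, f i z) (fun _ => 0) (frontier (Metric.ball (0 : ℂ) 1)) := by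
    intro z hz
    rw [frontier_ball _ one_ne_zero] at hz
    obtain ⟨x, rfl⟩ := exists_ee (by simpa using hz)
    -- choose `i` and an integer `n` with `x + i / m + n` in `(u, v)`
    obtain ⟨n, hn1, hn2⟩ : ∃ n : ℤ, u < x + n / m ∧ x + n / m < v := by
      refine ⟨⌊(u - x) * m⌋ + 1, ?_, ?_⟩
      · have h1 := Int.lt_floor_add_one ((u - x) * m)
        push_cast
        rw [← sub_lt_iff_lt_add', lt_div_iff₀ hm0]
        linarith
      · have h1 := Int.floor_le ((u - x) * m)
        push_cast
        have h2 : ((⌊(u - x) * m⌋ : ℝ) + 1) / m ≤ (u - x) + 1 / m := by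
          rw [add_div]
          gcongr
          rw [div_le_iff₀ hm0]
          exact h1
        linarith
    have hmz : (m : ℤ) ≠ 0 := by exact_mod_cast hmn.ne'
    have hr0 : 0 ≤ n % m := Int.emod_nonneg _ hmz
    have hr1 : n % m < m := Int.emod_lt_of_pos _ (by exact_mod_cast hmn)
    refine Finset.prod_eq_zero (i := (n % m).toNat) ?_ ?_
    · rw [Finset.mem_range]; omega
    · show G g (ee (((n % m).toNat : ℕ) / m) * ee x) = 0
      have e1 : (((n % m).toNat : ℕ) : ℝ) = ((n % m : ℤ) : ℝ) := by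
        have : (((n % m).toNat : ℕ) : ℤ) = n % m := Int.toNat_of_nonneg hr0
        exact_mod_cast this
      have e2 : ((n % m : ℤ) : ℝ) = n - m * ((n / m : ℤ) : ℝ) := by
        have := Int.emod_add_mul_ediv n m
        have h' : ((n % m : ℤ) : ℝ) + m * ((n / m : ℤ) : ℝ) = n := by exact_mod_cast this
        linarith
      have e3 : ee (((n % m).toNat : ℕ) / m) * ee x = ee (x + n / m) := by
        rw [← ee_add, e1, e2]
        have e4 : (n - m * ((n / m : ℤ) : ℝ)) / m + x = (x + n / m) + ((-(n / m) : ℤ) : ℝ) := by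
          push_cast
          field_simp
          ring
        rw [e4, ee_add, ee_int, mul_one]
      rw [e3]
      exact hG _ ⟨hn1, hn2⟩
  have hP := Complex.eqOn_closure_of_eqOn_frontier Metric.isBounded_ball hPd diffContOnCl_const hP0
  obtain ⟨i, -, hi⟩ := prod_zero (Finset.range m) f (fun i _ => hfa i) (fun z hz => hP (subset_closure hz))
  refine coeff_zero hg fun z hz => ?_
  have h1 := hi (ee (-(i / m)) * z) (by
    simp only [Metric.mem_ball, dist_zero_right] at hz ⊢
    rw [norm_mul, ee_norm, one_mul]; exact hz)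
  simp only [f] at h1
  rwa [← mul_assoc, ← ee_add, add_neg_cancel, ee_zero, one_mul] at h1

end Pool.Agent.T2H09.SG
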