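import Pool.Agent.T2H09.SG.A

/-!
# Local Fourier coefficients of an exponential polynomial (tent functions) and Bessel's inequality
-/

set_option autoImplicit false
open Filter Topology Finset MeasureTheory

namespace Pool.Agent.T2H09.SG

/-- Fourier coefficients of the tent function `max (η - |y|) 0` -/
noncomputable def w (η : ℝ) (k : ℤ) : ℝ :=
  if k = 0 then η ^ 2 else (1 - Real.cos (2 * Real.pi * k * η)) / (2 * Real.pi ^ 2 * k ^ 2)

lemma w_neg (η : ℝ) (k : ℤ) : w η (-k) = w η k := by
  unfold w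
  by_cases hk : k = 0
  · simp [hk]
  · rw [if_neg (by simpa using hk), if_neg hk]
    congr 2
    · rw [show 2 * Real.pi * ((-k : ℤ) : ℝ) * η = -(2 * Real.pi * k * η) by push_cast; ring, Real.cos_neg]
    · push_cast; ring

lemma w_nonneg (η : ℝ) (k : ℤ) : 0 ≤ w η k := by
  unfold w
  split_ifs
  · positivity
  · have := Real.cos_le_one (2 * Real.pi * k * η)
    exact div_nonneg (by linarith) (by positivity)

lemma w_pos {η : ℝ} (hη : 0 < η) {k : ℤ} (hk : |(k : ℝ)| * η < 1) : 0 < w η k := by
  unfold w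
  split_ifs with h0
  · positivity
  · have hk0 : (k : ℝ) ≠ 0 := by exact_mod_cast h0
    have h1 : Real.cos (2 * Real.pi * k * η) ≠ 1 := by
      intro h
      rw [Real.cos_eq_one_iff] at h
      obtain ⟨n, hn⟩ := h
      have hp := Real.pi_pos
      have h2 : (n : ℝ) = k * η := by
        have : (2 * Real.pi) * ((n : ℝ) - k * η) = 0 := by linarith
        rcases mul_eq_zero.1 this with h | h
        · linarith
        · linarith
      have h3 : |(n : ℝ)| < 1 := by rw [h2, abs_mul, abs_of_pos hη]; exact hk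
      have h4 : n = 0 := by
        have : |n| < 1 := by exact_mod_cast h3
        exact Int.abs_lt_one_iff.1 this
      rw [h4, Int.cast_zero] at h2
      rcases mul_eq_zero.1 h2.symm with h | h
      · exact hk0 h
      · exact hη.ne' h
    have h2 := lt_of_le_of_ne (Real.cos_le_one (2 * Real.pi * k * η)) h1
    have : 0 < Real.pi := Real.pi_pos
    exact div_pos (by linarith) (by positivity)

lemma w_summable (η : ℝ) : Summable (w η) := by
  have h : Summable fun k : ℤ => 1 / (k : ℝ) ^ 2 := Real.summable_one_div_int_pow.2 (by norm_num)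
  refine Summable.of_norm_bounded_eventually (g := fun k : ℤ => 1 / (k : ℝ) ^ 2) h ?_
  have hfin : ({(0 : ℤ)} : Set ℤ).Finite := Set.finite_singleton 0
  filter_upwards [hfin.compl_mem_cofinite] with k hk
  have hk0 : k ≠ 0 := hk
  have hkr : (k : ℝ) ≠ 0 := by exact_mod_cast hk0
  rw [Real.norm_eq_abs, abs_of_nonneg (w_nonneg η k)]
  unfold w
  rw [if_neg hk0]
  have h1 := Real.neg_one_le_cos (2 * Real.pi * k * η)
  have hp : 3 < Real.pi := Real.pi_gt_three
  rw [div_le_div_iff₀ (by positivity) (by positivity)]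
  have hk2 : 0 < (k : ℝ) ^ 2 := by positivity
  nlinarith [mul_pos hk2 (show (0:ℝ) < Real.pi ^ 2 - 1 by nlinarith)]

lemma tent_int {η : ℝ} (hη : 0 ≤ η) (k : ℤ) :
    ∫ y in (-η)..η, ((η - |y| : ℝ) : ℂ) * ee (k * y) = (w η k : ℂ) := by
  have hcont : Continuous fun y : ℝ => ((η - |y| : ℝ) : ℂ) * ee (k * y) := by
    unfold ee; fun_prop
  rw [← intervalIntegral.integral_add_adjacent_intervals (hcont.intervalIntegrable (-η) 0)
    (hcont.intervalIntegrable 0 η)]
  have e1 : ∫ y in (-η)..0, ((η - |y| : ℝ) : ℂ) * ee (k * y) =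
      ∫ y in (-η)..0, ((η + y : ℝ) : ℂ) * ee (k * y) := by
    refine intervalIntegral.integral_congr fun y hy => ?_
    rw [Set.uIcc_of_le (by linarith)] at hy
    rw [abs_of_nonpos hy.2, sub_neg_eq_add]
  have e2 : ∫ y in (0:ℝ)..η, ((η - |y| : ℝ) : ℂ) * ee (k * y) =
      ∫ y in (0:ℝ)..η, ((η - y : ℝ) : ℂ) * ee (k * y) := by
    refine intervalIntegral.integral_congr fun y hy => ?_
    rw [Set.uIcc_of_le hη] at hy
    rw [abs_of_nonneg hy.1]
  rw [e1, e2]
  by_cases hk : k = 0
  · subst hk
    have h3 : ∀ y : ℝ, ee (((0 : ℤ) : ℝ) * y) = 1 := fun y => by simp [ee_zero]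
    simp only [h3, mul_one]
    rw [intervalIntegral.integral_ofReal, intervalIntegral.integral_ofReal, ← Complex.ofReal_add]
    congr 1
    have i1 : ∫ y in (-η)..0, (η + y) = η ^ 2 / 2 := by
      rw [intervalIntegral.integral_add (by simp) (by simp)]
      simp
      ring
    have i2 : ∫ y in (0:ℝ)..η, (η - y) = η ^ 2 / 2 := by
      rw [intervalIntegral.integral_sub (by simp) (by simp)]
      simp
      ring
    rw [i1, i2]
    simp [w]
  · have hkr : (k : ℝ) ≠ 0 := by exact_mod_cast hk
    have hp := Real.pi_pos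
    set c : ℂ := 2 * Real.pi * Complex.I * k with hc
    have hc0 : c ≠ 0 := by
      rw [hc]
      have : (Real.pi : ℂ) ≠ 0 := by exact_mod_cast hp.ne'
      have h2 : (k : ℂ) ≠ 0 := by exact_mod_cast hk
      simp [this, h2]
    have hee : ∀ y : ℝ, ee (k * y) = Complex.exp (c * y) := fun y => by
      unfold ee; rw [hc]; congr 1; push_cast; ring
    have hd : ∀ y : ℝ, HasDerivAt (fun y : ℝ => Complex.exp (c * y)) (c * Complex.exp (c * y)) y := by
      intro y
      have h1 : HasDerivAt (fun y : ℝ => c * (y : ℂ)) c y := by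
        simpa using (Complex.ofRealCLM.hasDerivAt (x := y)).const_mul c
      have h2 := h1.cexp
      rwa [mul_comm] at h2
    have hid : ∀ y : ℝ, HasDerivAt (fun y : ℝ => (y : ℂ)) 1 y := fun y => by
      have := (hasDerivAt_id y).ofReal_comp
      simpa using this
    have j1 : ∫ y in (-η)..0, ((η + y : ℝ) : ℂ) * ee (k * y) =
        ((η + 0) * Complex.exp (c * 0) / c - Complex.exp (c * 0) / c ^ 2) -
          ((η + (-η : ℝ)) * Complex.exp (c * (-η : ℝ)) / c - Complex.exp (c * (-η : ℝ)) / c ^ 2) := by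
      have hint : IntervalIntegrable (fun y : ℝ => ((η + y : ℝ) : ℂ) * ee (k * y)) volume (-η) 0 :=
        Continuous.intervalIntegrable (by unfold ee; fun_prop) _ _
      have := intervalIntegral.integral_eq_sub_of_hasDerivAt
        (f := fun y : ℝ => ((η : ℂ) + y) * Complex.exp (c * y) / c - Complex.exp (c * y) / c ^ 2)
        (f' := fun y : ℝ => ((η + y : ℝ) : ℂ) * ee (k * y)) (a := -η) (b := 0) (fun y _ => by
          have h1 := (((hid y).const_add (η : ℂ)).mul (hd y)).div_const c
          have h2 := (hd y).div_const (c ^ 2)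
          have h3 := h1.sub h2
          refine h3.congr_deriv ?_
          rw [hee]
          push_cast
          field_simp
          ring) hint
      rw [this]
      simp
    have j2 : ∫ y in (0:ℝ)..η, ((η - y : ℝ) : ℂ) * ee (k * y) =
        ((η - η) * Complex.exp (c * η) / c + Complex.exp (c * η) / c ^ 2) -
          ((η - 0) * Complex.exp (c * 0) / c + Complex.exp (c * 0) / c ^ 2) := by
      have hint : IntervalIntegrable (fun y : ℝ => ((η - y : ℝ) : ℂ) * ee (k * y)) volume 0 η :=
        Continuous.intervalIntegrable (by unfold ee; fun_prop) _ _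
      have := intervalIntegral.integral_eq_sub_of_hasDerivAt
        (f := fun y : ℝ => ((η : ℂ) - y) * Complex.exp (c * y) / c + Complex.exp (c * y) / c ^ 2)
        (f' := fun y : ℝ => ((η - y : ℝ) : ℂ) * ee (k * y)) (a := 0) (b := η) (fun y _ => by
          have h1 := (((hid y).const_sub (η : ℂ)).mul (hd y)).div_const c
          have h2 := (hd y).div_const (c ^ 2)
          have h3 := h1.add h2
          refine h3.congr_deriv ?_
          rw [hee]
          push_cast
          field_simp
          ring) hint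
      rw [this]
      simp
    rw [j1, j2]
    have e3 : Complex.exp (c * η) + Complex.exp (c * (-η : ℝ)) = 2 * Real.cos (2 * Real.pi * k * η) := by
      rw [Complex.ofReal_cos, Complex.two_cos]
      congr 2
      · rw [hc]; push_cast; ring
      · rw [hc]; push_cast; ring
    have hc2 : c ^ 2 = -(4 * Real.pi ^ 2 * k ^ 2 : ℝ) := by
      rw [hc]; push_cast
      ring_nf
      rw [Complex.I_sq]; ring
    unfold w
    rw [if_neg hk]
    have e4 : ((η + 0) * Complex.exp (c * 0) / c - Complex.exp (c * 0) / c ^ 2) -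
          ((η + (-η : ℝ)) * Complex.exp (c * (-η : ℝ)) / c - Complex.exp (c * (-η : ℝ)) / c ^ 2) +
        (((η - η) * Complex.exp (c * η) / c + Complex.exp (c * η) / c ^ 2) -
          ((η - 0) * Complex.exp (c * 0) / c + Complex.exp (c * 0) / c ^ 2)) =
        ((Complex.exp (c * η) + Complex.exp (c * (-η : ℝ))) - 2) / c ^ 2 := by
      simp only [mul_zero, Complex.exp_zero]
      push_cast
      field_simp
      ring
    rw [e4, e3, hc2]
    push_cast
    have h5 : (Real.pi : ℂ) ≠ 0 := by exact_mod_cast hp.ne'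
    have h6 : (k : ℂ) ≠ 0 := by exact_mod_cast hk
    field_simp
    ring

/-- the exponential polynomial -/
noncomputable def S (a : ℕ → ℂ) (R : ℕ) (x : ℝ) : ℂ := ∑ n ∈ Icc 1 R, a n * ee (n * x)

lemma S_cont (a : ℕ → ℂ) (R : ℕ) : Continuous (S a R) := by
  unfold S ee
  fun_prop

/-- the local coefficients -/
noncomputable def D (a : ℕ → ℂ) (R : ℕ) (η q : ℝ) (N : ℤ) : ℂ :=
  ∑ m ∈ Icc 1 R, a m * ((w η ((m : ℤ) - N) : ℝ) : ℂ) * ee (((m : ℤ) - N : ℤ) * q)

lemma D_eq (a : ℕ → ℂ) (R : ℕ) {η : ℝ} (hη : 0 ≤ η) (q : ℝ) (N : ℤ) :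
    ∫ x in (q - η)..(q + η), ((η - |x - q| : ℝ) : ℂ) * S a R x * ee (-(N * x)) = D a R η q N := by
  have h1 : ∫ x in (q - η)..(q + η), ((η - |x - q| : ℝ) : ℂ) * S a R x * ee (-(N * x)) =
      ∫ y in (-η)..η, ((η - |y| : ℝ) : ℂ) * S a R (y + q) * ee (-(N * (y + q))) := by
    have h2 := intervalIntegral.integral_comp_sub_right
      (fun y : ℝ => ((η - |y| : ℝ) : ℂ) * S a R (y + q) * ee (-(N * (y + q)))) (a := q - η) (b := q + η) q
    simp only [sub_add_cancel, sub_sub_cancel_left, add_sub_cancel_left] at h2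
    exact h2
  rw [h1]
  have h2 : ∀ y : ℝ, ((η - |y| : ℝ) : ℂ) * S a R (y + q) * ee (-(N * (y + q))) =
      ∑ m ∈ Icc 1 R, (a m * ee (((m : ℤ) - N : ℤ) * q)) *
        (((η - |y| : ℝ) : ℂ) * ee (((m : ℤ) - N : ℤ) * y)) := by
    intro y
    unfold S
    rw [mul_sum, sum_mul]
    refine sum_congr rfl fun m _ => ?_
    have : ee (m * (y + q)) * ee (-(N * (y + q))) = ee (((m : ℤ) - N : ℤ) * q) * ee (((m : ℤ) - N : ℤ) * y) := by
      rw [← ee_add, ← ee_add]
      congr 1
      push_cast
      ring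
    calc ((η - |y| : ℝ) : ℂ) * (a m * ee (m * (y + q))) * ee (-(N * (y + q)))
        = ((η - |y| : ℝ) : ℂ) * a m * (ee (m * (y + q)) * ee (-(N * (y + q)))) := by ring
      _ = _ := by rw [this]; ring
  simp_rw [h2]
  rw [intervalIntegral.integral_finsetSum]
  · unfold D
    refine sum_congr rfl fun m _ => ?_
    rw [intervalIntegral.integral_const_mul, tent_int hη]
    ring
  · intro m _
    refine Continuous.intervalIntegrable ?_ _ _
    unfold ee
    fun_prop

/-- the local Fourier coefficients of a function -/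
noncomputable def coef (h : ℝ → ℂ) (η q : ℝ) (N : ℤ) : ℂ :=
  ∫ x in (q - η)..(q + η), ((η - |x - q| : ℝ) : ℂ) * h x * ee (-(N * x))

/-- Bessel's inequality -/
theorem bessel {h : ℝ → ℂ} (hc : Continuous h) {η : ℝ} (hη : 0 ≤ η) (hη2 : η ≤ 1 / 2) (q : ℝ) (F : Finset ℤ) :
    ∑ N ∈ F, ‖coef h η q N‖ ^ 2 ≤ η ^ 2 * ∫ x in (q - η)..(q + η), ‖h x‖ ^ 2 := by
  have hab : q - 1 / 2 < q + 1 / 2 := by linarith
  let f : ℝ → ℂ := fun x => ((max (η - |x - q|) 0 : ℝ) : ℂ) * h x
  have hfc : Continuous f := by fun_prop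
  have hL2 : MemLp f 2 (volume.restrict (Set.Ioc (q - 1 / 2) (q + 1 / 2))) := by
    obtain ⟨C, hC⟩ := (isCompact_Icc (a := q - 1 / 2) (b := q + 1 / 2)).exists_bound_of_continuousOn hfc.continuousOn
    refine MemLp.of_bound hfc.aestronglyMeasurable C ?_
    filter_upwards [ae_restrict_mem measurableSet_Ioc] with x hx
    exact hC x (Set.Ioc_subset_Icc_self hx)
  have hs := hasSum_sq_fourierCoeffOn hab hL2
  -- integrals over the long interval
  have hsplit : ∀ {E : Type} [NormedAddCommGroup E] [NormedSpace ℝ E] (g g' : ℝ → E), Continuous g →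
      (∀ x, |x - q| ≤ η → g x = g' x) → (∀ x, η ≤ |x - q| → g x = 0) →
      ∫ x in (q - 1 / 2)..(q + 1 / 2), g x = ∫ x in (q - η)..(q + η), g' x := by
    intro E _ _ g g' hg h1 h2
    rw [← intervalIntegral.integral_add_adjacent_intervals (hg.intervalIntegrable (q - 1 / 2) (q - η))
      (hg.intervalIntegrable (q - η) (q + 1 / 2)),
      ← intervalIntegral.integral_add_adjacent_intervals (hg.intervalIntegrable (q - η) (q + η))
      (hg.intervalIntegrable (q + η) (q + 1 / 2))]
    have z1 : ∫ x in (q - 1 / 2)..(q - η), g x = 0 := by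
      rw [intervalIntegral.integral_congr (g := fun _ => (0 : E)), intervalIntegral.integral_zero]
      intro x hx
      rw [Set.uIcc_of_le (by linarith)] at hx
      refine h2 x ?_
      rw [abs_sub_comm, abs_of_nonneg (by linarith [hx.2])]
      linarith [hx.2]
    have z2 : ∫ x in (q + η)..(q + 1 / 2), g x = 0 := by
      rw [intervalIntegral.integral_congr (g := fun _ => (0 : E)), intervalIntegral.integral_zero]
      intro x hx
      rw [Set.uIcc_of_le (by linarith)] at hx
      refine h2 x ?_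
      rw [abs_of_nonneg (by linarith [hx.1])]
      linarith [hx.1]
    rw [z1, z2, zero_add, add_zero]
    refine intervalIntegral.integral_congr fun x hx => ?_
    rw [Set.uIcc_of_le (by linarith)] at hx
    exact h1 x (abs_le.2 ⟨by linarith [hx.1], by linarith [hx.2]⟩)
  have hcoef : ∀ N : ℤ, fourierCoeffOn hab f N = coef h η q N := by
    intro N
    rw [fourierCoeffOn_eq_integral]
    have h1 : (q + 1 / 2) - (q - 1 / 2) = 1 := by ring
    have h2 : ∀ x : ℝ, (fourier (-N)) (x : AddCircle ((q + 1 / 2) - (q - 1 / 2))) • f x = f x * ee (-(N * x)) := by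
      intro x
      rw [fourier_coe_apply, smul_eq_mul, mul_comm]
      congr 1
      unfold ee
      congr 1
      have : (((q + 1 / 2) - (q - 1 / 2) : ℝ) : ℂ) = 1 := by rw [h1]; simp
      rw [this]
      push_cast
      ring
    simp_rw [h2]
    rw [h1, div_one, one_smul]
    refine hsplit _ _ ?_ ?_ ?_
    · unfold ee; fun_prop
    · intro x hx
      simp only [f]
      rw [max_eq_left (by linarith)]
    · intro x hx
      simp only [f]
      rw [max_eq_right (by linarith)]
      simp
  have hle := sum_le_hasSum F (fun i _ => by positivity) hs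
  simp_rw [hcoef] at hle
  refine hle.trans ?_
  have h1 : (q + 1 / 2) - (q - 1 / 2) = 1 := by ring
  rw [h1, inv_one, one_smul]
  rw [hsplit (fun x => ‖f x‖ ^ 2) (fun x => (η - |x - q|) ^ 2 * ‖h x‖ ^ 2) (by fun_prop) (fun x hx => by
      simp only [f]
      rw [norm_mul, Complex.norm_real, Real.norm_eq_abs, max_eq_left (by linarith), mul_pow, sq_abs])
    (fun x hx => by
      simp only [f]
      rw [max_eq_right (by linarith)]
      simp)]
  rw [← intervalIntegral.integral_const_mul]
  refine intervalIntegral.integral_mono_on (by linarith) (Continuous.intervalIntegrable (by fun_prop) _ _)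
    (Continuous.intervalIntegrable (by fun_prop) _ _) fun x hx => ?_
  have hx' : |x - q| ≤ η := abs_le.2 ⟨by linarith [hx.1], by linarith [hx.2]⟩
  have : (η - |x - q|) ^ 2 ≤ η ^ 2 := by
    have := abs_nonneg (x - q)
    nlinarith
  gcongr

/-- the reflected sum -/
noncomputable def E (a : ℕ → ℂ) (R : ℕ) (η q : ℝ) (N : ℤ) : ℂ :=
  ∑ m ∈ Icc 1 R, (starRingEnd ℂ) (a m) * ((w η ((m : ℤ) + N) : ℝ) : ℂ) * ee (-(((m : ℤ) + N : ℤ) * q))

lemma E_eq (a : ℕ → ℂ) (R : ℕ) {η : ℝ} (hη : 0 ≤ η) (q : ℝ) (N : ℤ) :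
    coef (fun x => (starRingEnd ℂ) (S a R x)) η q N = E a R η q N := by
  have h := D_eq a R hη q (-N)
  have h2 : coef (fun x => (starRingEnd ℂ) (S a R x)) η q N =
      (starRingEnd ℂ) (∫ x in (q - η)..(q + η), ((η - |x - q| : ℝ) : ℂ) * S a R x * ee (-((-N : ℤ) * x))) := by
    unfold coef
    rw [intervalIntegral.integral_of_le (by linarith), intervalIntegral.integral_of_le (by linarith), ← integral_conj]
    refine integral_congr_ae (Eventually.of_forall fun x => ?_)
    simp only [map_mul, Complex.conj_ofReal]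
    rw [← ee_neg]
    congr 2
    push_cast
    ring
  rw [h2, h]
  unfold D E
  rw [map_sum]
  refine sum_congr rfl fun m _ => ?_
  simp only [map_mul, Complex.conj_ofReal]
  rw [← ee_neg, sub_neg_eq_add]

/-- the local coefficients of `Re (z S)` -/
lemma re_eq (a : ℕ → ℂ) (R : ℕ) {η : ℝ} (hη : 0 ≤ η) (q : ℝ) (z : ℂ) (N : ℤ) :
    2 * coef (fun x => (((z * S a R x).re : ℝ) : ℂ)) η q N = z * D a R η q N + (starRingEnd ℂ) z * E a R η q N := by
  rw [← E_eq a R hη q N, ← D_eq a R hη q N]
  have hSc := S_cont a R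
  have hee : Continuous ee := ee_cont
  unfold coef
  rw [← intervalIntegral.integral_const_mul, ← intervalIntegral.integral_const_mul,
    ← intervalIntegral.integral_const_mul, ← intervalIntegral.integral_add]
  · refine intervalIntegral.integral_congr fun x _ => ?_
    simp only
    have h1 : (2 : ℂ) * (((z * S a R x).re : ℝ) : ℂ) = z * S a R x + (starRingEnd ℂ) z * (starRingEnd ℂ) (S a R x) := by
      rw [← map_mul, Complex.add_conj]; push_cast; ring
    linear_combination ((η - |x - q| : ℝ) : ℂ) * ee (-(N * x)) * h1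
  · exact Continuous.intervalIntegrable (by fun_prop) _ _
  · exact Continuous.intervalIntegrable (by fun_prop) _ _

/-- the reflected sum is small for large `N` -/
lemma E_tendsto (η : ℝ) (B : ℝ) (hB : 0 ≤ B) : ∀ e : ℝ, 0 < e → ∃ N₀ : ℤ, ∀ N : ℤ, N₀ ≤ N → ∀ (a : ℕ → ℂ)
    (R : ℕ) (q : ℝ), (∀ m, ‖a m‖ ≤ B) → ‖E a R η q N‖ ≤ e := by
  intro e he
  have hs : Summable fun k : ℕ => B * w η (k : ℤ) :=
    ((w_summable η).comp_injective Nat.cast_injective).mul_left B
  have ht := tendsto_sum_nat_add fun k : ℕ => B * w η (k : ℤ)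
  obtain ⟨N₁, hN₁⟩ := ((ht.eventually (gt_mem_nhds he)).and (eventually_ge_atTop 0)).exists_forall_of_atTop
  refine ⟨N₁, fun N hN a R q ha => ?_⟩
  have hN0 : 0 ≤ N := by omega
  have h1 := (hN₁ N.toNat (by omega)).1
  have h2 : ‖E a R η q N‖ ≤ ∑ m ∈ Icc 1 R, B * w η ((m + N.toNat : ℕ) : ℤ) := by
    unfold E
    refine (norm_sum_le _ _).trans (sum_le_sum fun m _ => ?_)
    rw [norm_mul, norm_mul, ee_norm, mul_one, Complex.norm_real, Real.norm_eq_abs, abs_of_nonneg (w_nonneg _ _),
      Complex.norm_conj]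
    have e1 : ((m + N.toNat : ℕ) : ℤ) = (m : ℤ) + N := by omega
    rw [e1]
    exact mul_le_mul_of_nonneg_right (ha m) (w_nonneg _ _)
  refine h2.trans (le_trans ?_ h1.le)
  exact Summable.sum_le_tsum _ (fun m _ => mul_nonneg hB (w_nonneg _ _)) ((summable_nat_add_iff N.toNat).2 hs)

end Pool.Agent.T2H09.SG
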