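import Pool.Agent.T2H09.SG.B

/-!
# Bounded integer sequences with a spectral gap are periodic, with a bounded period
-/

set_option autoImplicit false
open Filter Topology Finset MeasureTheory

namespace Pool.Agent.T2H09.SG

/-- a test functional -/
noncomputable def T (b : ℤ → ℤ) (l : ℕ) (q : ℝ) (n : ℤ) : ℂ :=
  ∑' k : ℤ, (b (k + n) : ℂ) * ((w (1 / l) k : ℝ) : ℂ) * ee (k * q)

/-- bounded integer sequences with no spectrum in `(u, v)` -/
def InX (u v : ℝ) (B : ℕ) (b : ℤ → ℤ) : Prop :=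
  (∀ k, |b k| ≤ B) ∧ ∀ (n : ℤ) (q : ℚ) (l : ℕ), 2 ≤ l → u + 1 / l ≤ q → q + 1 / l ≤ v → T b l q n = 0

lemma norm_b {b : ℤ → ℤ} {B : ℕ} (h : ∀ k, |b k| ≤ B) (k : ℤ) : ‖(b k : ℂ)‖ ≤ B := by
  rw [Complex.norm_intCast]
  exact_mod_cast h k

lemma term_bound {b : ℤ → ℤ} {B : ℕ} (h : ∀ k, |b k| ≤ B) (l : ℕ) (q : ℝ) (n k : ℤ) :
    ‖(b (k + n) : ℂ) * ((w (1 / l) k : ℝ) : ℂ) * ee (k * q)‖ ≤ B * w (1 / l) k := by
  rw [norm_mul, norm_mul, ee_norm, mul_one, Complex.norm_real, Real.norm_eq_abs, abs_of_nonneg (w_nonneg _ _)]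
  exact mul_le_mul_of_nonneg_right (norm_b h _) (w_nonneg _ _)

lemma T_summable {b : ℤ → ℤ} {B : ℕ} (h : ∀ k, |b k| ≤ B) (l : ℕ) (q : ℝ) (n : ℤ) :
    Summable fun k : ℤ => (b (k + n) : ℂ) * ((w (1 / l) k : ℝ) : ℂ) * ee (k * q) :=
  Summable.of_norm_bounded ((w_summable (1 / l)).mul_left (B : ℝ)) (term_bound h l q n)

lemma InX.shift {u v : ℝ} {B : ℕ} {b : ℤ → ℤ} (h : InX u v B b) (m : ℤ) : InX u v B (fun k => b (k + m)) := by
  refine ⟨fun k => h.1 _, fun n q l hl h1 h2 => ?_⟩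
  have := h.2 (n + m) q l hl h1 h2
  rw [← this]
  unfold T
  refine tsum_congr fun k => ?_
  show (b (k + n + m) : ℂ) * _ * _ = _
  rw [add_assoc]

lemma InX.sub {u v : ℝ} {B : ℕ} {b b' : ℤ → ℤ} (h : InX u v B b) (h' : InX u v B b') :
    InX u v (2 * B) (fun k => b k - b' k) := by
  refine ⟨fun k => ?_, fun n q l hl h1 h2 => ?_⟩
  · have e1 := h.1 k
    have e2 := h'.1 k
    have := abs_sub (b k) (b' k)
    push_cast
    linarith
  · have e1 := h.2 n q l hl h1 h2
    have e2 := h'.2 n q l hl h1 h2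
    have := (T_summable h.1 l q n).tsum_sub (T_summable h'.1 l q n)
    unfold T at e1 e2 ⊢
    rw [e1, e2, sub_zero] at this
    rw [← this]
    refine tsum_congr fun k => ?_
    push_cast
    ring

/-- a sequence in the class that vanishes to the right of `0` vanishes at `0` -/
lemma one_sided {u v : ℝ} (huv : u < v) {B : ℕ} {d : ℤ → ℤ} (h : InX u v B d) (h0 : ∀ k, 0 < k → d k = 0) :
    d 0 = 0 := by
  obtain ⟨l, hl⟩ := exists_nat_gt (max 2 (2 / (v - u)))
  have hl2 : (2 : ℝ) < l := lt_of_le_of_lt (le_max_left _ _) hl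
  have hl3 : 2 / (v - u) < l := lt_of_le_of_lt (le_max_right _ _) hl
  have hvu : 0 < v - u := sub_pos.2 huv
  have hl0 : (0 : ℝ) < l := by linarith
  have hln : 2 ≤ l := by exact_mod_cast hl2.le
  have hl4 : 2 * (1 / (l : ℝ)) < v - u := by
    rw [div_lt_iff₀ hvu] at hl3
    rw [mul_one_div, div_lt_iff₀ hl0]
    linarith
  let g : ℕ → ℂ := fun k => (d (-(k : ℤ)) : ℂ) * ((w (1 / l) k : ℝ) : ℂ)
  have hgs : Summable fun k => ‖g k‖ := by
    have h1 : Summable fun k : ℕ => (B : ℝ) * w (1 / l) (k : ℤ) :=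
      ((w_summable (1 / (l : ℝ))).comp_injective Nat.cast_injective).mul_left (B : ℝ)
    refine Summable.of_nonneg_of_le (fun k => norm_nonneg _) (fun k => ?_) h1
    simp only [g]
    rw [norm_mul, Complex.norm_real, Real.norm_eq_abs, abs_of_nonneg (w_nonneg _ _)]
    exact mul_le_mul_of_nonneg_right (norm_b h.1 _) (w_nonneg _ _)
  let H : ℝ → ℂ := fun x => ∑' k : ℕ, g k * ee (k * x)
  have hHc : Continuous H := by
    refine continuous_tsum (fun k => ?_) hgs fun k x => ?_
    · unfold ee; fun_prop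
    · rw [norm_mul, ee_norm, mul_one]
  have hHq : ∀ q : ℚ, -(v - 1 / l) < (q : ℝ) → (q : ℝ) < -(u + 1 / l) → H q = 0 := by
    intro q h1 h2
    have h3 := h.2 0 (-q) l hln (by push_cast; linarith) (by push_cast; linarith)
    rw [← h3]
    unfold T
    have hinj : Function.Injective (fun k : ℕ => -(k : ℤ)) := fun a b hab => by
      simpa using hab
    rw [← hinj.tsum_eq]
    · refine tsum_congr fun k => ?_
      simp only [g, add_zero, w_neg]
      congr 2
      push_cast
      ring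
    · intro k hk
      rw [Function.mem_support] at hk
      by_contra hcon
      apply hk
      have hk0 : 0 < k := by
        by_contra hle
        exact hcon ⟨k.natAbs, by simp only; omega⟩
      rw [add_zero, h0 k hk0]
      simp
  have hH : ∀ x ∈ Set.Ioo (-(v - 1 / l)) (-(u + 1 / l)), H x = 0 := by
    intro x hx
    by_contra hne
    have hop : IsOpen ({y | H y ≠ 0} ∩ Set.Ioo (-(v - 1 / l)) (-(u + 1 / l))) :=
      (isOpen_ne_fun hHc continuous_const).inter isOpen_Ioo
    obtain ⟨q, hq⟩ := Rat.denseRange_cast.exists_mem_open hop ⟨x, hne, hx⟩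
    exact hq.1 (hHq q hq.2.1 hq.2.2)
  have hz := arc_zero hgs (by linarith : -(v - 1 / (l : ℝ)) < -(u + 1 / l)) hH 0
  simp only [g] at hz
  have hw : w (1 / l) 0 ≠ 0 := (w_pos (by positivity) (by simp)).ne'
  have h1 : ((w (1 / l) ((0 : ℕ) : ℤ) : ℝ) : ℂ) ≠ 0 := by
    simpa using hw
  have h2 := (mul_eq_zero.1 hz).resolve_right h1
  simpa using h2

/-- ultrafilter limits of bounded integer sequences -/
lemma ultra_lim (U : Ultrafilter ℕ) {B : ℕ} (f : ℕ → ℤ) (hf : ∀ j, |f j| ≤ B) :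
    ∃ c : ℤ, |c| ≤ B ∧ ∀ᶠ j in (U : Filter ℕ), f j = c := by
  have h1 : ∀ᶠ j in (U : Filter ℕ), ∃ c ∈ (Set.Icc (-(B : ℤ)) B), f j = c :=
    Eventually.of_forall fun j => ⟨f j, abs_le.1 (hf j), rfl⟩
  have h2 : (⋃ c ∈ Set.Icc (-(B : ℤ)) B, {j | f j = c}) ∈ U := by
    filter_upwards [h1] with j hj
    obtain ⟨c, hc, hj⟩ := hj
    exact Set.mem_biUnion hc hj
  rw [Ultrafilter.finite_biUnion_mem_iff (Set.finite_Icc _ _)] at h2
  obtain ⟨c, hc, h3⟩ := h2
  exact ⟨c, abs_le.2 hc, h3⟩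

lemma T_tendsto {F : Filter ℕ} {B : ℕ} {b : ℕ → ℤ → ℤ} {c : ℤ → ℤ} (hb : ∀ j k, |b j k| ≤ B)
    (h : ∀ k, ∀ᶠ j in F, b j k = c k) (l : ℕ) (q : ℝ) (n : ℤ) :
    Tendsto (fun j => T (b j) l q n) F (𝓝 (T c l q n)) := by
  unfold T
  refine tendsto_tsum_of_dominated_convergence ((w_summable (1 / l)).mul_left (B : ℝ)) (fun k => ?_) ?_
  · refine Tendsto.congr' ?_ tendsto_const_nhds
    filter_upwards [h (k + n)] with j hj
    rw [hj]
  · exact Eventually.of_forall fun j k => term_bound (hb j) l q n k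

/-- the value at `0` is determined by finitely many values to the right -/
lemma determined {u v : ℝ} (huv : u < v) (B : ℕ) :
    ∃ M : ℕ, ∀ b b' : ℤ → ℤ, InX u v B b → InX u v B b' → (∀ k : ℤ, 1 ≤ k → k ≤ M → b k = b' k) → b 0 = b' 0 := by
  by_contra hcon
  push Not at hcon
  choose b b' hb hb' heq hne using hcon
  let U : Ultrafilter ℕ := hyperfilter ℕ
  have h1 : ∀ k : ℤ, ∃ c : ℤ, |c| ≤ B ∧ ∀ᶠ j in (U : Filter ℕ), b j k = c :=
    fun k => ultra_lim U (fun j => b j k) fun j => (hb j).1 k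
  have h2 : ∀ k : ℤ, ∃ c : ℤ, |c| ≤ B ∧ ∀ᶠ j in (U : Filter ℕ), b' j k = c :=
    fun k => ultra_lim U (fun j => b' j k) fun j => (hb' j).1 k
  choose c hcB hc using h1
  choose c' hcB' hc' using h2
  have hX : ∀ (b : ℕ → ℤ → ℤ) (c : ℤ → ℤ), (∀ j, InX u v B (b j)) → (∀ k, |c k| ≤ B) →
      (∀ k, ∀ᶠ j in (U : Filter ℕ), b j k = c k) → InX u v B c := by
    intro b c hb hcB hc
    refine ⟨hcB, fun n q l hl g1 g2 => ?_⟩
    have t1 := T_tendsto (F := (U : Filter ℕ)) (fun j => (hb j).1) hc l q n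
    have t2 : Tendsto (fun j => T (b j) l q n) (U : Filter ℕ) (𝓝 0) := by
      refine Tendsto.congr (fun j => ((hb j).2 n q l hl g1 g2).symm) tendsto_const_nhds
    exact tendsto_nhds_unique t1 t2
  have hXc := hX b c hb hcB hc
  have hXc' := hX b' c' hb' hcB' hc'
  have hinf : ∀ n : ℕ, ∀ᶠ j in (U : Filter ℕ), n ≤ j := fun n => by
    have : (U : Filter ℕ) ≤ atTop := by
      have := Nat.hyperfilter_le_atTop
      exact this
    exact this (eventually_ge_atTop n)
  have hpos : ∀ k : ℤ, 0 < k → c k - c' k = 0 := by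
    intro k hk
    obtain ⟨j, hj1, hj2, hj3⟩ := ((hc k).and ((hc' k).and (hinf k.toNat))).exists
    have := heq j k (by omega) (by omega)
    rw [← hj1, ← hj2, this, sub_self]
  have h0 := one_sided huv (hXc.sub hXc') hpos
  obtain ⟨j, hj1, hj2⟩ := ((hc 0).and (hc' 0)).exists
  apply hne j
  rw [hj1, hj2]
  linarith

/-- periodicity -/
theorem periodic {u v : ℝ} (huv : u < v) (B : ℕ) :
    ∃ D : ℕ, 1 ≤ D ∧ ∀ b : ℤ → ℤ, InX u v B b → ∀ k : ℤ, b (k + D) = b k := by
  obtain ⟨M, hM⟩ := determined huv B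
  let N : ℕ := Fintype.card (Fin M → Fin (2 * B + 1))
  refine ⟨N.factorial, Nat.factorial_pos _, fun b hb k => ?_⟩
  -- determinism at all places
  have hdet : ∀ i j : ℤ, (∀ s : ℤ, 1 ≤ s → s ≤ M → b (i + s) = b (j + s)) → b i = b j := by
    intro i j hij
    have := hM _ _ (hb.shift i) (hb.shift j) (fun s h1 h2 => by
      have := hij s h1 h2
      rw [add_comm s i, add_comm s j]; exact this)
    simpa using this
  set n : ℤ := k + N.factorial with hn
  let blk : Fin (N + 1) → (Fin M → Fin (2 * B + 1)) := fun i s =>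
    ⟨(b (n + i + (s + 1)) + B).toNat, by
      have := abs_le.1 (hb.1 (n + i + (s + 1)))
      omega⟩
  obtain ⟨i, j, hij, hblk⟩ := Fintype.exists_ne_map_eq_of_card_lt blk (by simp [N])
  wlog hlt : i < j generalizing i j
  · exact this j i hij.symm hblk.symm (lt_of_le_of_ne (not_lt.1 hlt) hij.symm)
  have hw : ∀ s : ℤ, 1 ≤ s → s ≤ M → b (n + i + s) = b (n + j + s) := by
    intro s h1 h2
    have h3 := congrFun hblk ⟨(s - 1).toNat, by omega⟩
    simp only [blk, Fin.mk.injEq] at h3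
    have h4 : (((s - 1).toNat : ℕ) : ℤ) + 1 = s := by omega
    rw [h4] at h3
    have h5 := abs_le.1 (hb.1 (n + i + s))
    have h6 := abs_le.1 (hb.1 (n + j + s))
    omega
  have hwt : ∀ t : ℕ, ∀ s : ℤ, 1 ≤ s → s ≤ M → b (n + i - t + s) = b (n + j - t + s) := by
    intro t
    induction t with
    | zero => intro s h1 h2; simpa using hw s h1 h2
    | succ t ih =>
      intro s h1 h2
      by_cases hs : s = 1
      · subst hs
        have := hdet (n + i - t) (n + j - t) ih
        push_cast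
        have e1 : n + i - (t + 1) + 1 = n + (i : ℤ) - t := by ring
        have e2 : n + j - (t + 1) + 1 = n + (j : ℤ) - t := by ring
        rw [e1, e2]
        exact this
      · have := ih (s - 1) (by omega) (by omega)
        push_cast
        have e1 : n + i - (t + 1) + s = n + (i : ℤ) - t + (s - 1) := by ring
        have e2 : n + j - (t + 1) + s = n + (j : ℤ) - t + (s - 1) := by ring
        rw [e1, e2]
        exact this
  have hper : ∀ m : ℤ, m ≤ n + i → b m = b (m + ((j : ℤ) - i)) := by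
    intro m hm
    have h1 := hdet (n + i - ((n + i - m).toNat : ℕ)) (n + j - ((n + i - m).toNat : ℕ)) (hwt _)
    have e0 : (((n + i - m).toNat : ℕ) : ℤ) = n + i - m := Int.toNat_of_nonneg (by omega)
    rw [e0] at h1
    have e1 : n + (i : ℤ) - (n + i - m) = m := by ring
    have e2 : n + (j : ℤ) - (n + i - m) = m + ((j : ℤ) - i) := by ring
    rwa [e1, e2] at h1
  -- the difference divides `N!`
  set e : ℕ := (j : ℕ) - i with he
  have hlt' : (i : ℕ) < j := hlt
  have he1 : 1 ≤ e := by omega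
  have heN : e ≤ N := by have := j.2; omega
  have hez : (e : ℤ) = (j : ℤ) - i := by omega
  obtain ⟨r, hr⟩ := Nat.dvd_factorial he1 heN
  have hstep : ∀ t : ℕ, t ≤ r → b k = b (k + t * e) := by
    intro t
    induction t with
    | zero => intro _; simp
    | succ t ih =>
      intro ht
      rw [ih (by omega)]
      have h1 : k + t * e ≤ n + (i : ℤ) := by
        rw [hn, hr]
        push_cast
        have h2 : (t : ℤ) * e ≤ r * e := by
          have : (t : ℤ) ≤ r := by omega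
          exact mul_le_mul_of_nonneg_right this (by omega)
        have h3 : (0 : ℤ) ≤ i := by omega
        linarith
      rw [hper _ h1, hez]
      congr 1
      push_cast
      ring
  have h9 := hstep r le_rfl
  have h10 : k + ((N.factorial : ℕ) : ℤ) = k + r * e := by
    rw [hr]; push_cast; ring
  rw [h9, ← h10]

end Pool.Agent.T2H09.SG
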