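import Pool.Agent.T2H09.SG.C

/-!
# The inverse theorem: small mean square on an interval forces local periodicity
-/

set_option autoImplicit false
open Filter Topology Finset MeasureTheory

namespace Pool.Agent.T2H09.SG

/-- `a` is periodic with period `D` on the window of radius `L` around `n` -/
def Per (a : ℕ → ℤ) (D L n : ℕ) : Prop := ∀ m : ℕ, n ≤ m + L → m + D ≤ n + L → a (m + D) = a m

/-- the shifted and truncated sequence -/
noncomputable def sh (a : ℕ → ℤ) (R n : ℕ) (k : ℤ) : ℤ :=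
  if 1 ≤ (n : ℤ) + k ∧ (n : ℤ) + k ≤ R then a ((n : ℤ) + k).toNat else 0

lemma sh_le {a : ℕ → ℤ} {B : ℕ} (ha : ∀ n, |a n| ≤ B) (R n : ℕ) (k : ℤ) : |sh a R n k| ≤ B := by
  unfold sh
  split_ifs
  · exact ha _
  · simp

lemma T_sh (a : ℕ → ℤ) (R n : ℕ) (l : ℕ) (q : ℝ) (n' : ℤ) :
    T (sh a R n) l q n' = D (fun m => (a m : ℂ)) R (1 / l) q ((n : ℤ) + n') := by
  unfold T
  rw [← (Equiv.subRight ((n : ℤ) + n')).tsum_eq]
  rw [tsum_eq_sum (s := (Icc 1 R).map Nat.castEmbedding)]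
  · rw [sum_map]
    unfold D
    refine sum_congr rfl fun m hm => ?_
    rw [mem_Icc] at hm
    simp only [Nat.castEmbedding_apply, Equiv.subRight_apply]
    have e1 : sh a R n ((m : ℤ) - ((n : ℤ) + n') + n') = a m := by
      unfold sh
      have h1 : (n : ℤ) + ((m : ℤ) - ((n : ℤ) + n') + n') = m := by ring
      rw [h1, if_pos ⟨by omega, by omega⟩, Int.toNat_natCast]
    rw [e1]
  · intro m hm
    simp only [Equiv.subRight_apply]
    have e1 : sh a R n (m - ((n : ℤ) + n') + n') = 0 := by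
      unfold sh
      have h1 : (n : ℤ) + (m - ((n : ℤ) + n') + n') = m := by ring
      rw [h1, if_neg]
      rintro ⟨h2, h3⟩
      apply hm
      rw [Finset.mem_map]
      refine ⟨m.toNat, ?_, ?_⟩
      · rw [mem_Icc]; omega
      · simp only [Nat.castEmbedding_apply]; omega
    rw [e1]
    simp

/-- the real function `Re (z S)` -/
noncomputable def rS (z : ℂ) (a : ℕ → ℤ) (R : ℕ) (x : ℝ) : ℝ := (z * S (fun n => (a n : ℂ)) R x).re

lemma rS_cont (z : ℂ) (a : ℕ → ℤ) (R : ℕ) : Continuous (rS z a R) := by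
  have := S_cont (fun n => (a n : ℂ)) R
  unfold rS
  fun_prop

/-- the number of places where a local coefficient is large -/
lemma few_large (z : ℂ) (a : ℕ → ℤ) (R : ℕ) {u v : ℝ} {q : ℝ} {l : ℕ} (hl : 2 ≤ l) (h1 : u + 1 / l ≤ q)
    (h2 : q + 1 / l ≤ v) {c : ℝ} (hc : ∫ x in u..v, rS z a R x ^ 2 ≤ c * R) {e : ℝ} (he : 0 < e) (n' : ℤ) :
    (#({n ∈ Icc 1 R | e < ‖coef (fun x => ((rS z a R x : ℝ) : ℂ)) (1 / l) q ((n : ℤ) + n')‖} : Finset ℕ) : ℝ) ≤
      c * R / e ^ 2 := by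
  have hl0 : (0 : ℝ) < l := by have : (2 : ℝ) ≤ l := by exact_mod_cast hl
                               linarith
  have hl2 : 1 / (l : ℝ) ≤ 1 / 2 := by
    have : (2 : ℝ) ≤ l := by exact_mod_cast hl
    exact one_div_le_one_div_of_le (by norm_num) this
  have hl3 : 0 ≤ 1 / (l : ℝ) := by positivity
  set F : Finset ℕ := {n ∈ Icc 1 R | e < ‖coef (fun x => ((rS z a R x : ℝ) : ℂ)) (1 / l) q ((n : ℤ) + n')‖} with hF
  have hinj : Function.Injective (fun n : ℕ => (n : ℤ) + n') := fun x y hxy => by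
    simpa using hxy
  have hSc := rS_cont z a R
  have hSc' : Continuous fun x => ((rS z a R x : ℝ) : ℂ) := by fun_prop
  have hb := bessel hSc' hl3 hl2 q (F.image fun n : ℕ => (n : ℤ) + n')
  rw [sum_image (fun x _ y _ h => hinj h)] at hb
  have h3 : (#F : ℝ) * e ^ 2 ≤ ∑ n ∈ F, ‖coef (fun x => ((rS z a R x : ℝ) : ℂ)) (1 / l) q ((n : ℤ) + n')‖ ^ 2 := by
    rw [← nsmul_eq_mul]
    refine card_nsmul_le_sum _ _ _ fun n hn => ?_
    rw [hF, mem_filter] at hn
    exact pow_le_pow_left₀ he.le hn.2.le 2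
  have h0 : ∀ x, ‖((rS z a R x : ℝ) : ℂ)‖ ^ 2 = rS z a R x ^ 2 := fun x => by
    rw [Complex.norm_real, Real.norm_eq_abs, sq_abs]
  simp_rw [h0] at hb
  have h4 : ∫ x in (q - 1 / l)..(q + 1 / l), rS z a R x ^ 2 ≤ ∫ x in u..v, rS z a R x ^ 2 := by
    refine intervalIntegral.integral_mono_interval (by linarith) (by linarith) h2
      (Eventually.of_forall fun x => by positivity) (Continuous.intervalIntegrable (by fun_prop) _ _)
  have h5 : 0 ≤ ∫ x in (q - 1 / l)..(q + 1 / l), rS z a R x ^ 2 :=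
    intervalIntegral.integral_nonneg (by linarith) fun x _ => by positivity
  have h6 : (1 / (l : ℝ)) ^ 2 ≤ 1 := by nlinarith
  rw [le_div_iff₀ (by positivity)]
  calc (#F : ℝ) * e ^ 2 ≤ (1 / (l : ℝ)) ^ 2 * ∫ x in (q - 1 / l)..(q + 1 / l), rS z a R x ^ 2 := h3.trans hb
    _ ≤ 1 * ∫ x in (q - 1 / l)..(q + 1 / l), rS z a R x ^ 2 := by gcongr
    _ ≤ c * R := by rw [one_mul]; exact h4.trans hc

open Classical in
/-- **The inverse theorem** on a fixed interval. -/
theorem inverse_fixed {u v : ℝ} (huv : u < v) (B : ℕ) :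
    ∃ P : ℕ, 1 ≤ P ∧ ∀ (L : ℕ) (ε : ℝ), 0 < ε → ∃ c : ℝ, 0 < c ∧ ∃ R₀ : ℕ, ∀ R : ℕ, R₀ ≤ R →
      ∀ z : ℂ, ‖z‖ = 1 → ∀ a : ℕ → ℤ, (∀ n, |a n| ≤ B) → ∫ x in u..v, rS z a R x ^ 2 ≤ c * R →
        (#({n ∈ Icc 1 R | ¬ Per a P L n} : Finset ℕ) : ℝ) ≤ ε * R := by
  obtain ⟨P, hP1, hP⟩ := periodic huv B
  refine ⟨P, hP1, fun L ε hε => ?_⟩
  by_contra hcon
  push Not at hcon
  obtain ⟨tst, htst⟩ := exists_surjective_nat (ℤ × ℚ × ℕ)
  -- one step
  have step : ∀ j : ℕ, ∃ (R : ℕ) (z : ℂ) (a : ℕ → ℤ) (n : ℕ), ‖z‖ = 1 ∧ (∀ n, |a n| ≤ B) ∧ j < n ∧ n + j ≤ R ∧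
      ¬ Per a P L n ∧
      ∀ i ≤ j, 2 ≤ (tst i).2.2 → u + 1 / ((tst i).2.2 : ℝ) ≤ (tst i).2.1 → (tst i).2.1 + 1 / ((tst i).2.2 : ℝ) ≤ v →
        ‖coef (fun x => ((rS z a R x : ℝ) : ℂ)) (1 / ((tst i).2.2 : ℝ)) (tst i).2.1 ((n : ℤ) + (tst i).1)‖ ≤
          1 / ((j : ℝ) + 1) := by
    intro j
    have hj : (0 : ℝ) < (j : ℝ) + 1 := by positivity
    obtain ⟨R, hR, z, hz, a, ha, hint, hbad⟩ := hcon (ε / (4 * ((j : ℝ) + 1) ^ 3)) (by positivity) ⌈8 * j / ε⌉₊
    refine ⟨R, z, a, ?_⟩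
    by_contra hno
    push Not at hno
    have hRr : 8 * j / ε ≤ R := (Nat.le_ceil _).trans (by exact_mod_cast hR)
    have hR2 : 8 * (j : ℝ) ≤ ε * R := by
      rw [div_le_iff₀ hε] at hRr; linarith
    -- every bad `n` is at the edge or fails a test
    let good : ℕ → Prop := fun i => 2 ≤ (tst i).2.2 ∧ u + 1 / ((tst i).2.2 : ℝ) ≤ (tst i).2.1 ∧
      (tst i).2.1 + 1 / ((tst i).2.2 : ℝ) ≤ v
    let Fi : ℕ → Finset ℕ := fun i => {n ∈ Icc 1 R | 1 / ((j : ℝ) + 1) <
      ‖coef (fun x => ((rS z a R x : ℝ) : ℂ)) (1 / ((tst i).2.2 : ℝ)) (tst i).2.1 ((n : ℤ) + (tst i).1)‖}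
    have hsub : ({n ∈ Icc 1 R | ¬ Per a P L n} : Finset ℕ) ⊆
        (Icc 1 j ∪ Ioc (R - j) R) ∪ ((range (j + 1)).filter good).biUnion Fi := by
      intro n hn
      rw [mem_filter, mem_Icc] at hn
      rw [mem_union]
      by_cases hedge : j < n ∧ n + j ≤ R
      · right
        obtain ⟨i, hi, h2, h3, h4, h5⟩ := hno n hz ha hedge.1 hedge.2 hn.2
        rw [mem_biUnion]
        refine ⟨i, ?_, ?_⟩
        · rw [mem_filter, mem_range]
          exact ⟨by omega, h2, h3, h4⟩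
        · simp only [Fi]
          rw [mem_filter, mem_Icc]
          exact ⟨hn.1, h5⟩
      · left
        rw [mem_union, mem_Icc, mem_Ioc]
        by_contra h
        push Not at h
        apply hedge
        constructor
        · by_contra h6
          have := h.1 hn.1.1
          omega
        · by_contra h6
          have := h.2 (by omega)
          omega
    have hcard := card_le_card hsub
    have h1 : #(Icc 1 j ∪ Ioc (R - j) R) ≤ 2 * j := by
      refine (card_union_le _ _).trans ?_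
      rw [Nat.card_Icc, Nat.card_Ioc]
      omega
    have h2 : (#(((range (j + 1)).filter good).biUnion Fi) : ℝ) ≤ ε * R / 4 := by
      have h3 : (#(((range (j + 1)).filter good).biUnion Fi) : ℝ) ≤
          ∑ i ∈ (range (j + 1)).filter good, (#(Fi i) : ℝ) := by
        exact_mod_cast card_biUnion_le
      refine h3.trans ?_
      have h4 : ∀ i ∈ (range (j + 1)).filter good, (#(Fi i) : ℝ) ≤ ε * R / (4 * ((j : ℝ) + 1)) := by
        intro i hi
        rw [mem_filter] at hi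
        have h5 := few_large z a R hi.2.1 hi.2.2.1 hi.2.2.2 hint
          (show (0 : ℝ) < 1 / ((j : ℝ) + 1) by positivity) (tst i).1
        refine h5.trans (le_of_eq ?_)
        field_simp
      refine (sum_le_sum h4).trans ?_
      rw [sum_const, nsmul_eq_mul]
      have h5 : (#((range (j + 1)).filter good) : ℝ) ≤ (j : ℝ) + 1 := by
        have := card_filter_le (range (j + 1)) good
        rw [card_range] at this
        exact_mod_cast this
      have h6 : 0 ≤ ε * R / (4 * ((j : ℝ) + 1)) := by positivity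
      calc (#((range (j + 1)).filter good) : ℝ) * (ε * R / (4 * ((j : ℝ) + 1)))
          ≤ ((j : ℝ) + 1) * (ε * R / (4 * ((j : ℝ) + 1))) := by gcongr
        _ = ε * R / 4 := by field_simp
    have h3 : (#({n ∈ Icc 1 R | ¬ Per a P L n} : Finset ℕ) : ℝ) ≤ 2 * j + ε * R / 4 := by
      have h4 := hcard.trans (card_union_le _ _)
      have h5 : (#({n ∈ Icc 1 R | ¬ Per a P L n} : Finset ℕ) : ℝ) ≤
          (#(Icc 1 j ∪ Ioc (R - j) R) : ℝ) + (#(((range (j + 1)).filter good).biUnion Fi) : ℝ) := by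
        exact_mod_cast h4
      have h6 : (#(Icc 1 j ∪ Ioc (R - j) R) : ℝ) ≤ 2 * j := by exact_mod_cast h1
      linarith
    have hR0 : 0 ≤ ε * (R : ℝ) := by positivity
    linarith
  choose R z a n hz haB hjn hnR hbad htest using step
  let U : Ultrafilter ℕ := hyperfilter ℕ
  have hinf : ∀ n : ℕ, ∀ᶠ j in (U : Filter ℕ), n ≤ j := fun n => by
    have : (U : Filter ℕ) ≤ atTop := Nat.hyperfilter_le_atTop
    exact this (eventually_ge_atTop n)
  let b : ℕ → ℤ → ℤ := fun j => sh (a j) (R j) (n j)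
  have hbB : ∀ j k, |b j k| ≤ B := fun j k => sh_le (haB j) _ _ _
  have h1 : ∀ k : ℤ, ∃ c : ℤ, |c| ≤ B ∧ ∀ᶠ j in (U : Filter ℕ), b j k = c :=
    fun k => ultra_lim U (fun j => b j k) fun j => hbB j k
  choose c hcB hc using h1
  have hX : InX u v B c := by
    refine ⟨hcB, fun n' q l hl g1 g2 => ?_⟩
    obtain ⟨i, hi⟩ := htst (n', q, l)
    have t1 := T_tendsto (F := (U : Filter ℕ)) hbB hc l q n'
    have t2 : Tendsto (fun j => T (b j) l q n') (U : Filter ℕ) (𝓝 0) := by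
      have hle : (U : Filter ℕ) ≤ atTop := Nat.hyperfilter_le_atTop
      rw [Metric.tendsto_nhds]
      intro e he
      obtain ⟨N₀, hN₀⟩ := E_tendsto (1 / (l : ℝ)) B (by positivity) (e / 4) (by positivity)
      obtain ⟨J, hJ⟩ := exists_nat_gt (4 / e)
      filter_upwards [hinf i, hinf J, hinf (N₀ - n').toNat] with j hj hjJ hjN
      have h3 := htest j i hj
      rw [hi] at h3
      have h3' := h3 hl g1 g2
      rw [dist_zero_right]
      show ‖T (sh (a j) (R j) (n j)) l q n'‖ < e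
      rw [T_sh]
      have hl3 : 0 ≤ 1 / (l : ℝ) := by positivity
      have h4 := re_eq (fun m => (a j m : ℂ)) (R j) hl3 q (z j) ((n j : ℤ) + n')
      have h5 : ‖E (fun m => (a j m : ℂ)) (R j) (1 / (l : ℝ)) q ((n j : ℤ) + n')‖ ≤ e / 4 := by
        refine hN₀ _ ?_ _ _ _ fun m => ?_
        · have := hjn j
          omega
        · simp only [Complex.norm_intCast]
          exact_mod_cast haB j m
      have h6 : 1 / ((j : ℝ) + 1) < e / 4 := by
        have h7 : (J : ℝ) ≤ j := by exact_mod_cast hjJ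
        rw [div_lt_iff₀ (by positivity)]
        rw [div_lt_iff₀ he] at hJ
        nlinarith
      have h8 : z j * D (fun m => (a j m : ℂ)) (R j) (1 / (l : ℝ)) q ((n j : ℤ) + n') =
          2 * coef (fun x => ((rS (z j) (a j) (R j) x : ℝ) : ℂ)) (1 / (l : ℝ)) q ((n j : ℤ) + n') -
          (starRingEnd ℂ) (z j) * E (fun m => (a j m : ℂ)) (R j) (1 / (l : ℝ)) q ((n j : ℤ) + n') := by
        have : coef (fun x => ((rS (z j) (a j) (R j) x : ℝ) : ℂ)) (1 / (l : ℝ)) q ((n j : ℤ) + n') =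
          coef (fun x => (((z j * S (fun m => (a j m : ℂ)) (R j) x).re : ℝ) : ℂ)) (1 / (l : ℝ)) q ((n j : ℤ) + n') := rfl
        rw [this, h4]
        ring
      have h9 : ‖D (fun m => (a j m : ℂ)) (R j) (1 / (l : ℝ)) q ((n j : ℤ) + n')‖ =
          ‖z j * D (fun m => (a j m : ℂ)) (R j) (1 / (l : ℝ)) q ((n j : ℤ) + n')‖ := by
        rw [norm_mul, hz j, one_mul]
      rw [h9, h8]
      refine (norm_sub_le _ _).trans_lt ?_
      rw [norm_mul, norm_mul, Complex.norm_conj, hz j, one_mul, show ‖(2 : ℂ)‖ = 2 by norm_num]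
      have h10 : ‖coef (fun x => ((rS (z j) (a j) (R j) x : ℝ) : ℂ)) (1 / (l : ℝ)) q ((n j : ℤ) + n')‖ ≤
        1 / ((j : ℝ) + 1) := h3'
      linarith
    exact tendsto_nhds_unique t1 t2
  have hper := hP c hX
  -- the bad windows
  have hbad' : ∀ j, ∃ m : ℕ, n j ≤ m + L ∧ m + P ≤ n j + L ∧ a j (m + P) ≠ a j m := by
    intro j
    have := hbad j
    unfold Per at this
    push Not at this
    exact this
  choose m hm1 hm2 hm3 using hbad'
  obtain ⟨t, -, ht⟩ := ultra_lim U (B := L) (fun j => (m j : ℤ) - n j) (fun j => by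
    have h1 := hm1 j
    have h2 := hm2 j
    rw [abs_le]; omega)
  obtain ⟨j, hj1, hj2, hj3, hj4⟩ := (ht.and ((hc t).and ((hc (t + P)).and (hinf L)))).exists
  have g1 := hm1 j
  have g2 := hm2 j
  have g3 := hjn j
  have g4 := hnR j
  have e1 : b j t = a j (m j) := by
    show sh (a j) (R j) (n j) t = _
    unfold sh
    have h5 : (n j : ℤ) + t = m j := by omega
    rw [h5, if_pos ⟨by omega, by omega⟩, Int.toNat_natCast]
  have e2 : b j (t + P) = a j (m j + P) := by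
    show sh (a j) (R j) (n j) (t + P) = _
    unfold sh
    have h5 : (n j : ℤ) + (t + P) = ((m j + P : ℕ) : ℤ) := by push_cast; omega
    rw [h5, if_pos ⟨by omega, by omega⟩, Int.toNat_natCast]
  apply hm3 j
  rw [← e1, ← e2, hj2, hj3]
  exact hper t

end Pool.Agent.T2H09.SG
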