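import Pool.Agent.T2H09.SG.D

/-!
# No spectral gap: intervals of given length, and sequences supported on the squarefree numbers
-/

set_option autoImplicit false
open Filter Topology Finset MeasureTheory

namespace Pool.Agent.T2H09.SG

lemma Per.mul {a : ℕ → ℤ} {P L n : ℕ} (h : Per a P L n) (r : ℕ) : Per a (P * r) L n := by
  induction r with
  | zero => intro m _ _; simp
  | succ r ih =>
    intro m h1 h2
    have e1 : m + P * (r + 1) = (m + P * r) + P := by ring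
    rw [e1]
    rw [e1] at h2
    rw [h (m + P * r) (by omega) h2, ih m h1 (by omega)]

lemma Per.dvd {a : ℕ → ℤ} {P Q L n : ℕ} (h : Per a P L n) (hd : P ∣ Q) : Per a Q L n := by
  obtain ⟨r, rfl⟩ := hd
  exact h.mul r

lemma S_per (a : ℕ → ℂ) (R : ℕ) (k : ℤ) (x : ℝ) : S a R (x + k) = S a R x := by
  unfold S
  refine sum_congr rfl fun n _ => ?_
  have : (n : ℝ) * (x + k) = n * x + ((n * k : ℤ) : ℝ) := by push_cast; ring
  rw [this, ee_add, ee_int, mul_one]

lemma rS_per (z : ℂ) (a : ℕ → ℤ) (R : ℕ) (k : ℤ) (x : ℝ) : rS z a R (x + k) = rS z a R x := by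
  unfold rS
  rw [S_per]

open Classical in
/-- **The inverse theorem**, uniformly over the intervals of given length. -/
theorem inverse {δ : ℝ} (hδ : 0 < δ) (B : ℕ) :
    ∃ P : ℕ, 1 ≤ P ∧ ∀ (L : ℕ) (ε : ℝ), 0 < ε → ∃ c : ℝ, 0 < c ∧ ∃ R₀ : ℕ, ∀ R : ℕ, R₀ ≤ R →
      ∀ α : ℝ, ∀ z : ℂ, ‖z‖ = 1 → ∀ a : ℕ → ℤ, (∀ n, |a n| ≤ B) →
        ∫ x in α..(α + δ), rS z a R x ^ 2 ≤ c * R →
        (#({n ∈ Icc 1 R | ¬ Per a P L n} : Finset ℕ) : ℝ) ≤ ε * R := by
  obtain ⟨N, hN⟩ := exists_nat_gt (2 / δ)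
  have hN0 : (0 : ℝ) < N := lt_trans (by positivity) hN
  have hNn : 0 < N := by exact_mod_cast hN0
  have hN2 : 2 / (N : ℝ) < δ := by
    rw [div_lt_iff₀ hN0]
    rw [div_lt_iff₀ hδ] at hN
    linarith
  have hfix := fun s : ℕ => inverse_fixed (u := (s : ℝ) / N) (v := ((s : ℝ) + 1) / N)
    (by gcongr; linarith) B
  choose P hP1 hP using hfix
  refine ⟨∏ s ∈ range N, P s, ?_, fun L ε hε => ?_⟩
  · exact Nat.one_le_iff_ne_zero.2 (prod_ne_zero_iff.2 fun s _ => Nat.one_le_iff_ne_zero.1 (hP1 s))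
  choose c hc R₀ hR using fun s => hP s L ε hε
  have hne : (range N).Nonempty := ⟨0, mem_range.2 hNn⟩
  refine ⟨(range N).inf' hne c, (lt_inf'_iff hne).2 fun s _ => hc s, (range N).sup R₀, ?_⟩
  intro R hRR α z hz a ha hint
  -- choose the small interval
  set t : ℤ := ⌈α * N⌉ with ht
  have ht1 : α * N ≤ t := Int.le_ceil _
  have ht2 : (t : ℝ) < α * N + 1 := Int.ceil_lt_add_one _
  have hNz : (N : ℤ) ≠ 0 := by exact_mod_cast hNn.ne'
  have hr0 : 0 ≤ t % N := Int.emod_nonneg _ hNz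
  have hr1 : t % N < N := Int.emod_lt_of_pos _ (by exact_mod_cast hNn)
  set s : ℕ := (t % N).toNat with hs
  have hsz : (s : ℤ) = t % N := Int.toNat_of_nonneg hr0
  have hsN : s < N := by omega
  set k : ℤ := t / N with hk
  have htk : (t : ℝ) = s + N * k := by
    have := Int.emod_add_mul_ediv t N
    have h' : (t : ℤ) = s + N * k := by rw [hsz]; exact this.symm
    exact_mod_cast h'
  have e1 : α ≤ (s : ℝ) / N + k := by
    have : (s : ℝ) / N + k = t / N := by rw [htk]; field_simp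
    rw [this, le_div_iff₀ hN0]
    exact ht1
  have e2 : ((s : ℝ) + 1) / N + k ≤ α + δ := by
    have : ((s : ℝ) + 1) / N + k = t / N + 1 / N := by rw [htk]; field_simp; ring
    rw [this]
    have h1 : (t : ℝ) / N ≤ α + 1 / N := by
      rw [div_le_iff₀ hN0, add_mul, one_div_mul_cancel hN0.ne']
      linarith
    have h2 : 1 / (N : ℝ) + 1 / N = 2 / N := by ring
    linarith
  have h0 : (s : ℝ) / N ≤ ((s : ℝ) + 1) / N := by gcongr; linarith
  have hrc := rS_cont z a R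
  have h3 : ∫ x in ((s : ℝ) / N)..(((s : ℝ) + 1) / N), rS z a R x ^ 2 ≤ c s * R := by
    have h4 : ∫ x in ((s : ℝ) / N)..(((s : ℝ) + 1) / N), rS z a R x ^ 2 =
        ∫ x in ((s : ℝ) / N + k)..(((s : ℝ) + 1) / N + k), rS z a R x ^ 2 := by
      rw [← intervalIntegral.integral_comp_add_right (fun x => rS z a R x ^ 2) (k : ℝ)]
      refine intervalIntegral.integral_congr fun x _ => ?_
      show rS z a R x ^ 2 = rS z a R (x + k) ^ 2
      rw [rS_per]
    rw [h4]
    have h5 : ∫ x in ((s : ℝ) / N + k)..(((s : ℝ) + 1) / N + k), rS z a R x ^ 2 ≤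
        ∫ x in α..(α + δ), rS z a R x ^ 2 :=
      intervalIntegral.integral_mono_interval e1 (by linarith) e2
        (Eventually.of_forall fun x => by positivity) (Continuous.intervalIntegrable (by fun_prop) _ _)
    refine h5.trans (hint.trans ?_)
    have h6 : (range N).inf' hne c ≤ c s := inf'_le _ (mem_range.2 hsN)
    gcongr
  have h4 := hR s R ((le_sup (f := R₀) (mem_range.2 hsN)).trans hRR) z hz a ha h3
  refine le_trans ?_ h4
  have h5 : ({n ∈ Icc 1 R | ¬ Per a (∏ s ∈ range N, P s) L n} : Finset ℕ) ⊆ ({n ∈ Icc 1 R | ¬ Per a (P s) L n} : Finset ℕ) := by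
    intro n hn
    rw [mem_filter] at hn ⊢
    exact ⟨hn.1, fun h => hn.2 (h.dvd (dvd_prod_of_mem P (mem_range.2 hsN)))⟩
  exact_mod_cast card_le_card h5

/-- at least a quarter of the integers are squarefree -/
lemma squarefree_count (R : ℕ) : (R : ℝ) / 4 ≤ (#({n ∈ Icc 1 R | Squarefree n} : Finset ℕ) : ℝ) := by
  classical
  have hsum : ∀ m : ℕ, ∑ d ∈ Icc 2 (m + 2), 1 / (d : ℝ) ^ 2 ≤ 3 / 4 - 1 / ((m : ℝ) + 2) := by
    intro m
    induction m with
    | zero => norm_num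
    | succ m ih =>
      rw [show m + 1 + 2 = (m + 2) + 1 by ring, sum_Icc_succ_top (by omega)]
      have h1 : 1 / (((m + 2 + 1 : ℕ) : ℝ)) ^ 2 ≤ 1 / ((m : ℝ) + 2) - 1 / ((m : ℝ) + 3) := by
        push_cast
        rw [div_sub_div _ _ (by positivity) (by positivity), div_le_div_iff₀ (by positivity) (by positivity)]
        have hm : (0 : ℝ) ≤ m := by positivity
        nlinarith
      push_cast at h1 ih ⊢
      have h2 : (m : ℝ) + 1 + 2 = m + 3 := by ring
      rw [h2]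
      linarith
  have hsum' : ∑ d ∈ Icc 2 R, 1 / (d : ℝ) ^ 2 ≤ 3 / 4 := by
    rcases lt_or_ge R 2 with h | h
    · rw [Icc_eq_empty (by omega)]; simp; norm_num
    · obtain ⟨m, rfl⟩ := Nat.exists_eq_add_of_le' h
      have := hsum m
      have h2 : 0 < 1 / ((m : ℝ) + 2) := by positivity
      linarith
  have hcover : Icc 1 R ⊆ ({n ∈ Icc 1 R | Squarefree n} : Finset ℕ) ∪
      (Icc 2 R).biUnion fun d => {n ∈ Ioc 0 R | d ^ 2 ∣ n} := by
    intro n hn
    rw [mem_Icc] at hn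
    rw [mem_union, mem_filter, mem_biUnion]
    by_cases hsq : Squarefree n
    · exact Or.inl ⟨mem_Icc.2 hn, hsq⟩
    · right
      rw [Nat.squarefree_iff_prime_squarefree] at hsq
      push Not at hsq
      obtain ⟨p, hp, hpn⟩ := hsq
      have hle : p * p ≤ n := Nat.le_of_dvd (by omega) hpn
      have hp2 := hp.two_le
      refine ⟨p, mem_Icc.2 ⟨hp2, by nlinarith⟩, ?_⟩
      rw [mem_filter, mem_Ioc]
      exact ⟨⟨by omega, by omega⟩, by rw [sq]; exact hpn⟩
  have h1 := (card_le_card hcover).trans (card_union_le _ _)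
  rw [Nat.card_Icc] at h1
  have h2 : (#((Icc 2 R).biUnion fun d => {n ∈ Ioc 0 R | d ^ 2 ∣ n}) : ℝ) ≤ 3 / 4 * R := by
    have h3 : (#((Icc 2 R).biUnion fun d => {n ∈ Ioc 0 R | d ^ 2 ∣ n}) : ℝ) ≤
        ∑ d ∈ Icc 2 R, (#({n ∈ Ioc 0 R | d ^ 2 ∣ n} : Finset ℕ) : ℝ) := by
      exact_mod_cast card_biUnion_le
    refine h3.trans ?_
    have h4 : ∀ d ∈ Icc 2 R, (#({n ∈ Ioc 0 R | d ^ 2 ∣ n} : Finset ℕ) : ℝ) ≤ R * (1 / (d : ℝ) ^ 2) := by
      intro d _
      rw [Nat.Ioc_filter_dvd_card_eq_div]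
      refine (Nat.cast_div_le).trans (le_of_eq ?_)
      push_cast
      ring
    refine (sum_le_sum h4).trans ?_
    rw [← mul_sum]
    have : (0 : ℝ) ≤ R := by positivity
    nlinarith
  have h5 : ((R + 1 - 1 : ℕ) : ℝ) ≤ (#({n ∈ Icc 1 R | Squarefree n} : Finset ℕ) : ℝ) +
      (#((Icc 2 R).biUnion fun d => {n ∈ Ioc 0 R | d ^ 2 ∣ n}) : ℝ) := by exact_mod_cast h1
  rw [Nat.add_sub_cancel] at h5
  linarith

/-- a squarefree number is not the centre of a periodic window of a sequence supported on the squarefree numbers -/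
lemma squarefree_bad {a : ℕ → ℤ} (ha : ∀ n, 1 ≤ n → (a n ≠ 0 ↔ Squarefree n)) {P p n : ℕ} (hP : 1 ≤ P)
    (hp : p.Prime) (hpP : P < p) (hn : 1 ≤ n) (hsq : Squarefree n) : ¬ Per a P (P * p ^ 2) n := by
  intro hper
  have hne : ∀ i : ℕ, i ≤ p ^ 2 → a (n + P * i) ≠ 0 := by
    intro i
    induction i with
    | zero => intro _; simpa using (ha n hn).2 hsq
    | succ i ih =>
      intro hi
      have h1 := ih (by omega)
      have h2 := hper (n + P * i) (by nlinarith) (by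
        have : P * i + P ≤ P * p ^ 2 := by
          calc P * i + P = P * (i + 1) := by ring
            _ ≤ P * p ^ 2 := Nat.mul_le_mul_left _ hi
        omega)
      have e1 : n + P * (i + 1) = n + P * i + P := by ring
      rw [e1, h2]
      exact h1
  -- some `n + P i` is divisible by `p ^ 2`
  have hcop : Nat.Coprime P (p ^ 2) := by
    refine Nat.Coprime.pow_right 2 ?_
    rw [Nat.coprime_comm, hp.coprime_iff_not_dvd]
    intro h
    exact absurd (Nat.le_of_dvd (by omega) h) (by omega)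
  have hp2 : 0 < p ^ 2 := pow_pos hp.pos 2
  obtain ⟨x, hx⟩ := Nat.exists_mul_mod_eq_one_of_coprime hcop (by
    have := hp.two_le
    nlinarith)
  -- `P x ≡ 1`, take `i = x (p^2 - n % p^2) % p^2`
  set i : ℕ := (x * (p ^ 2 - n % p ^ 2)) % p ^ 2 with hi
  have hilt : i < p ^ 2 := Nat.mod_lt _ hp2
  have hdvd : p ^ 2 ∣ n + P * i := by
    rw [← Nat.modEq_zero_iff_dvd]
    have h1 : P * i ≡ P * (x * (p ^ 2 - n % p ^ 2)) [MOD p ^ 2] := by
      rw [hi]
      exact Nat.ModEq.mul_left _ (Nat.mod_modEq _ _)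
    have h2 : P * (x * (p ^ 2 - n % p ^ 2)) ≡ 1 * (p ^ 2 - n % p ^ 2) [MOD p ^ 2] := by
      rw [← mul_assoc]
      refine Nat.ModEq.mul_right _ ?_
      unfold Nat.ModEq
      rw [hx.2, Nat.mod_eq_of_lt]
      have := hp.two_le
      nlinarith
    have h3 : n + P * i ≡ n % p ^ 2 + (p ^ 2 - n % p ^ 2) [MOD p ^ 2] := by
      refine Nat.ModEq.add (Nat.mod_modEq _ _).symm ?_
      simpa using h1.trans h2
    have h4 : n % p ^ 2 + (p ^ 2 - n % p ^ 2) = p ^ 2 := by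
      have := Nat.mod_lt n hp2
      omega
    rw [h4] at h3
    exact h3.trans (by simp [Nat.ModEq])
  have h5 := (ha (n + P * i) (by omega)).1 (hne i hilt.le)
  rw [Nat.squarefree_iff_prime_squarefree] at h5
  exact h5 p hp (by rw [← sq]; exact hdvd)

/-- **No spectral gap** for the sequences supported on the squarefree numbers. -/
theorem no_gap {δ : ℝ} (hδ : 0 < δ) (B : ℕ) :
    ∃ c : ℝ, 0 < c ∧ ∃ R₀ : ℕ, ∀ R : ℕ, R₀ ≤ R → ∀ α : ℝ, ∀ z : ℂ, ‖z‖ = 1 → ∀ a : ℕ → ℤ,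
      (∀ n, |a n| ≤ B) → (∀ n, 1 ≤ n → (a n ≠ 0 ↔ Squarefree n)) →
        c * R ≤ ∫ x in α..(α + δ), rS z a R x ^ 2 := by
  classical
  obtain ⟨P, hP1, hP⟩ := inverse hδ B
  obtain ⟨p, hpP, hp⟩ := Nat.exists_infinite_primes (P + 1)
  obtain ⟨c, hc, R₀, h⟩ := hP (P * p ^ 2) (1 / 5) (by norm_num)
  refine ⟨c, hc, max R₀ 1, fun R hR α z hz a ha hsq => ?_⟩
  by_contra hcon
  push Not at hcon
  have h1 := h R ((le_max_left _ _).trans hR) α z hz a ha hcon.le
  have h2 := squarefree_count R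
  have h3 : ({n ∈ Icc 1 R | Squarefree n} : Finset ℕ) ⊆ ({n ∈ Icc 1 R | ¬ Per a P (P * p ^ 2) n} : Finset ℕ) := by
    intro n hn
    rw [mem_filter] at hn ⊢
    exact ⟨hn.1, squarefree_bad hsq hP1 hp (by omega) (mem_Icc.1 hn.1).1 hn.2⟩
  have h4 : (#({n ∈ Icc 1 R | Squarefree n} : Finset ℕ) : ℝ) ≤
      (#({n ∈ Icc 1 R | ¬ Per a P (P * p ^ 2) n} : Finset ℕ) : ℝ) := by exact_mod_cast card_le_card h3
  have h5 : (1 : ℝ) ≤ R := by exact_mod_cast (le_max_right _ _).trans hR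
  linarith

/-- the supremum -/
lemma exists_large {f : ℝ → ℝ} (hf : Continuous f) {α δ K : ℝ} (hδ : 0 < δ) (hK : 0 ≤ K)
    (h : K ≤ ∫ x in α..(α + δ), f x ^ 2) : ∃ x ∈ Set.Icc α (α + δ), Real.sqrt (K / δ) ≤ |f x| := by
  by_contra hcon
  push Not at hcon
  have h1 : ∀ x ∈ Set.Icc α (α + δ), f x ^ 2 < K / δ := by
    intro x hx
    have := hcon x hx
    have h2 : |f x| ^ 2 < Real.sqrt (K / δ) ^ 2 := pow_lt_pow_left₀ this (abs_nonneg _) (by norm_num)
    rwa [Real.sq_sqrt (by positivity), sq_abs] at h2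
  have h2 : ∫ x in α..(α + δ), f x ^ 2 < ∫ _ in α..(α + δ), K / δ := by
    refine intervalIntegral.integral_lt_integral_of_continuousOn_of_le_of_exists_lt (by linarith)
      (by fun_prop) continuousOn_const (fun x hx => (h1 x (Set.Ioc_subset_Icc_self hx)).le)
      ⟨α, ⟨le_rfl, by linarith⟩, h1 α ⟨le_rfl, by linarith⟩⟩
  rw [intervalIntegral.integral_const, add_sub_cancel_left, smul_eq_mul, mul_div_cancel₀ _ hδ.ne'] at h2
  linarith

end Pool.Agent.T2H09.SG
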